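import Mathlib
import Pool.Agent.R507.C292.Main

/-!
# Weighted sums of squares of `R_k` and `W_k` modulo `16n` and `8n`

Both questions of the problem are answered positively.  The two sums turn out to have closed
forms as quadratic expressions in `R_n, R_(n-1), W_n, W_(n-1)`; these are proved by induction from
the first-order relations of `R` and `W` with the central Delannoy numbers, and are combined with
the residues of `R_n` modulo 16.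
-/

namespace Pool.Agent.Results.MP_c292ad_nt.SumsOfSquares

open Finset

/-- `R_n = ∑_{k=0}^n C(n+k,2k) C(2k,k) / (2k-1)`. -/
noncomputable def R (n : ℕ) : ℚ :=
  ∑ k ∈ range (n + 1), (((n + k).choose (2 * k) : ℚ) * ((2 * k).choose k : ℚ)) / (2 * (k : ℚ) - 1)

/-- `W_n = ∑_{k=0}^n C(n+k,2k) C(2k,k) * 3 / (2k-3)`. -/
noncomputable def W (n : ℕ) : ℚ :=
  ∑ k ∈ range (n + 1), (((n + k).choose (2 * k) : ℚ) * ((2 * k).choose k : ℚ)) * 3 / (2 * (k : ℚ) - 3)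

/-- All `R_n` and `W_n` are integers, and for every positive integer `n`
`∑_{k<n} (2k+1) R_k^2 ≡ n^2 (mod 16n)` and `∑_{k<n} (2k+1) W_k^2 ≡ n^2 (mod 8n)`
(the differences are `16n` and `8n` times an integer). -/
theorem result :
    (∀ n : ℕ, ∃ r : ℤ, R n = (r : ℚ)) ∧ (∀ n : ℕ, ∃ w : ℤ, W n = (w : ℚ)) ∧
    (∀ n : ℕ, 0 < n → ∃ z : ℤ,
      ∑ k ∈ range n, (2 * (k : ℚ) + 1) * R k ^ 2 - (n : ℚ) ^ 2 = 16 * (n : ℚ) * (z : ℚ)) ∧
    (∀ n : ℕ, 0 < n → ∃ z : ℤ,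
      ∑ k ∈ range n, (2 * (k : ℚ) + 1) * W k ^ 2 - (n : ℚ) ^ 2 = 8 * (n : ℚ) * (z : ℚ)) := by
  refine ⟨fun n => ⟨_, (Pool.Agent.R507.C292.Rz_cast n).symm⟩,
    fun n => ⟨_, (Pool.Agent.R507.C292.Wz_cast n).symm⟩, ?_, ?_⟩
  · intro n hn
    obtain ⟨m, rfl⟩ : ∃ m, n = m + 1 := ⟨n - 1, by omega⟩
    obtain ⟨z, hz⟩ := Pool.Agent.R507.C292.mainR m
    have h : ∑ k ∈ range (m + 1), (2 * (k : ℚ) + 1) * R k ^ 2
        = ((m + 1 : ℕ) : ℚ) ^ 2 + 16 * ((m + 1 : ℕ) : ℚ) * z := hz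
    exact ⟨z, by rw [h]; ring⟩
  · intro n hn
    obtain ⟨m, rfl⟩ : ∃ m, n = m + 1 := ⟨n - 1, by omega⟩
    obtain ⟨z, hz⟩ := Pool.Agent.R507.C292.mainW m
    have h : ∑ k ∈ range (m + 1), (2 * (k : ℚ) + 1) * W k ^ 2
        = ((m + 1 : ℕ) : ℚ) ^ 2 + 8 * ((m + 1 : ℕ) : ℚ) * z := hz
    exact ⟨z, by rw [h]; ring⟩

end Pool.Agent.Results.MP_c292ad_nt.SumsOfSquares
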